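import Mathlib
import Pool.Agent.H77.TF.Def
import Pool.Agent.H77.TF.Def2
import Pool.Agent.H77.TF.Stm
import Pool.Agent.H77.TF.Stm2
import Pool.Agent.H77.TF.Pri
import Pool.Agent.H77.TF.Moo
import Pool.Agent.H77.TF.Det
import Pool.Agent.H77.TF.Ful
import Pool.Agent.H22.TF.Mdt
import Pool.Agent.H27.TF.Sai
import Pool.Agent.H39.TF.Stp
import Pool.Agent.H40.TF.Bij
import Pool.Agent.H40.TF.Lt2
import Pool.Agent.H75.TF.Suf
import Pool.Agent.H83.TF.Du2
import Pool.Agent.H6.GR.Fqg
import Pool.Agent.H12.GR.Dep
import Pool.Agent.H23.GR.Red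
import Pool.Agent.H27.GR.Exb
import Pool.Agent.H39.GR.Pst
import Pool.Agent.H53.GR.EX1
import Pool.Agent.H57.GR.Sbr
import Pool.Agent.H66.GR.Exl
import Pool.Agent.H69.GR.Ex2
import Pool.Agent.H83.GR.Lag
import Pool.Agent.H91.GR.Pat
import Pool.Agent.H93.GR.Kos
import Pool.Agent.H77.GR.Def
import Pool.Agent.H77.GR.Stm
import Pool.Agent.H77.GR.Fin
import Pool.Agent.H77.GR.Td

/-!
# A numerical criterion for freeness in characteristic zero

Let `R` be a discrete valuation ring with fraction field `F` (for example the rational numbers or a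
number field) and finite residue field with `q` elements.  Let `A` be an arrangement of `n` planes
through the origin of `F ^ 3` with equations over `R` and good reduction: modulo the maximal ideal
the planes stay distinct and no independent triple of forms becomes dependent.  Let `v` be the
number of the points of the projective plane over the residue field on no line of the reduction;
it is the value at `q` of the characteristic polynomial of the lattice of `A`, divided by `q - 1`.

If `v = 0`, then `A` is free over `F` with exponents `1, q, n - 1 - q`.  If `v = u w` with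
`1 ≤ u ≤ w ≤ q`, `u + w + n = 2 q + 1` and `(q - w) u < q`, then `A` is free over `F` with exponents
`1, q - w, q - u`.  The same holds for all arrangements over `R` with good reduction and a lattice
isomorphic to that of `A`.
-/

set_option autoImplicit false

open MvPolynomial Module

namespace Pool.Agent.Results.MP_feb289_co.GoodReduction

open Pool.Agent.H77.TF Pool.Agent.H77.GR

theorem result :
    ∀ (R : Type) [CommRing R] [IsDomain R] [IsDiscreteValuationRing R]
      [Fintype (IsLocalRing.ResidueField R)] (F : Type) [Field F] [Algebra R F] [IsFractionRing R F]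
      (n : ℕ) (A : Fin n → Fin 3 → R), 1 ≤ n → Good A → ∀ e : Fin 3 → ℕ,
      Crit (Fintype.card (IsLocalRing.ResidueField R)) n (unc (mapA (IsLocalRing.residue R) A)) e →
      HasExp (mapA (algebraMap R F) A) e ∧
        ∀ (m : ℕ) (B : Fin m → Fin 3 → R), Good B →
          Nonempty (Lat (mapA (algebraMap R F) A) ≃o Lat (mapA (algebraMap R F) B)) →
          m = n ∧ HasExp (mapA (algebraMap R F) B) e := by
  have hPRI : S_PRI := pri
  have hMOO : S_MOO := moo
  have hDET : S_DET := det
  have hMDT : S_MDT := Pool.Agent.H22.TF.mdt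
  have hSAI : S_SAI := Pool.Agent.H27.TF.sai hPRI hDET
  have hFUL : S_FUL := ful hSAI hMDT
  have hSTP : S_STP := Pool.Agent.H39.TF.stp hFUL
  have hSUF : S_SUF := Pool.Agent.H75.TF.suf hPRI hMDT hSAI hSTP
  have hPAT : S_PAT := Pool.Agent.H91.GR.pat
  have hEX1 : S_EX1 := Pool.Agent.H53.GR.ex1 (Pool.Agent.H27.GR.exb hPRI)
    (Pool.Agent.H66.GR.exl Pool.Agent.H83.GR.lag)
  have hEX2 : S_EX2 := Pool.Agent.H69.GR.ex2 hEX1 hPAT
  exact fing_of hSUF fin4 Pool.Agent.H40.TF.bij Pool.Agent.H40.TF.lt2 Pool.Agent.H83.TF.du2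
    hEX2 (Pool.Agent.H23.GR.red Pool.Agent.H57.GR.sbr) hPAT
    (Pool.Agent.H39.GR.pst (Pool.Agent.H12.GR.dep Pool.Agent.H93.GR.kos)) Pool.Agent.H6.GR.fqg

end Pool.Agent.Results.MP_feb289_co.GoodReduction
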