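import Mathlib
import Pool.Agent.H77.TF.Def
import Pool.Agent.H77.TF.Def2
import Pool.Agent.H77.TF.Stm
import Pool.Agent.H77.TF.Stm2
import Pool.Agent.H77.TF.Fin2
import Pool.Agent.H77.TF.Pri
import Pool.Agent.H77.TF.Moo
import Pool.Agent.H77.TF.Det
import Pool.Agent.H77.TF.Ful
import Pool.Agent.H10.TF.Grd
import Pool.Agent.H22.TF.Mdt
import Pool.Agent.H22.TF.Nec
import Pool.Agent.H22.TF.Nc2
import Pool.Agent.H27.TF.Sai
import Pool.Agent.H27.TF.Cn2
import Pool.Agent.H27.TF.Pl3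
import Pool.Agent.H39.TF.Stp
import Pool.Agent.H40.TF.Bij
import Pool.Agent.H40.TF.Lt2
import Pool.Agent.H40.TF.Plu
import Pool.Agent.H57.TF.Del
import Pool.Agent.H64.TF.CFS
import Pool.Agent.H66.TG.Gn1
import Pool.Agent.H66.TG.Gen
import Pool.Agent.H69.TF.Rsn
import Pool.Agent.H75.TF.Suf
import Pool.Agent.H83.TF.Pnt
import Pool.Agent.H83.TF.Du2
import Pool.Agent.H91.TF.Phi
import Pool.Agent.H93.TF.Uni

/-!
# A numerical criterion for freeness over finite fields

Let `K` be the field with `q` elements and let `A` be a central arrangement of `n` hyperplanes in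
`K ^ l`, where `l ≥ 3` and `q ^ (l - 2) > 2`.  Let `v` be the number of the subspaces of codimension
two which lie in no hyperplane of `A`, and let `N = q + ⋯ + q ^ (l - 3) + 2 q ^ (l - 2)`.  Then
`v = 0` or `v ≥ N - n`, and `A` is free with some exponent at least `q ^ (l - 2) - 1` if and only if
`v = 0` or `v = N - n`.  The exponents are then `1, q, …, q ^ (l - 2), n - (1 + ⋯ + q ^ (l - 2))` or
`1, q, …, q ^ (l - 3), q ^ (l - 2) - 1, n + 1 - (1 + ⋯ + q ^ (l - 2))`.  For `n ≥ N - 2` this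
characterises freeness.  Hence Terao's conjecture holds over `K` for all free arrangements with an
exponent at least `q ^ (l - 2) - 1`, in particular for all free arrangements with at least `N - 2`
hyperplanes.
-/

set_option autoImplicit false

open MvPolynomial Module

namespace Pool.Agent.Results.MP_feb289_co.NumericalFreeness

open Pool.Agent.H77.TF

theorem result :
    ∀ (K : Type) [Field K] [Fintype K] (l : ℕ), 3 ≤ l → 2 < Fintype.card K ^ (l - 2) →
      (∀ (n : ℕ) (A : Fin n → Fin l → K), Simple A →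
        (unc A = 0 ∨ thr (Fintype.card K) l ≤ unc A + n) ∧
        List.TFAE [unc A = 0 ∨ unc A + n = thr (Fintype.card K) l,
          HasExp A (expo (Fintype.card K) l n) ∨ HasExp A (expo2 (Fintype.card K) l n),
          ∃ e, HasExp A e ∧ ∃ j, Fintype.card K ^ (l - 2) ≤ e j + 1] ∧
        (thr (Fintype.card K) l ≤ n + 2 →
          (Module.Free (MvPolynomial (Fin l) K) (LD A) ↔
            unc A = 0 ∨ unc A + n = thr (Fintype.card K) l))) ∧
      ∀ (n m : ℕ) (A : Fin n → Fin l → K) (B : Fin m → Fin l → K), Simple A → Simple B →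
        Nonempty (Lat A ≃o Lat B) →
        ((thr (Fintype.card K) l ≤ n + 2 ∧ Module.Free (MvPolynomial (Fin l) K) (LD A)) ∨
          ∃ e, HasExp A e ∧ ∃ j, Fintype.card K ^ (l - 2) ≤ e j + 1) →
        m = n ∧ ∃ e, HasExp A e ∧ HasExp B e := by
  have hPRI : S_PRI := pri
  have hMOO : S_MOO := moo
  have hDET : S_DET := det
  have hMDT : S_MDT := Pool.Agent.H22.TF.mdt
  have hSAI : S_SAI := Pool.Agent.H27.TF.sai hPRI hDET
  have hFUL : S_FUL := ful hSAI hMDT
  have hSTP : S_STP := Pool.Agent.H39.TF.stp hFUL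
  have hCFS : S_CFS := Pool.Agent.H64.TF.cfs
  have hPNT : S_PNT := Pool.Agent.H83.TF.pnt
  have hUNI : S_UNI := Pool.Agent.H93.TF.uni hPRI hMOO
  have hSUF : S_SUF := Pool.Agent.H75.TF.suf hPRI hMDT hSAI hSTP
  have hNEC : S_NEC := Pool.Agent.H22.TF.nec hMOO hPNT hCFS hUNI
  have hPLU : S_PLU := Pool.Agent.H40.TF.plu Pool.Agent.H27.TF.pl3
  have hGN1 : S_GN1 := Pool.Agent.H66.TG.gn1 hPLU
  have hGEN : S_GEN := Pool.Agent.H66.TG.gen hGN1 hPLU
  have hPHI : S_PHI := Pool.Agent.H91.TF.phi hPRI hMDT hSTP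
  have hRSN : S_RSN := Pool.Agent.H69.TF.rsn hMOO hPNT
  have hDEL : S_DEL := Pool.Agent.H57.TF.del hPHI hRSN
  have hNC2 : S_NC2 := Pool.Agent.H22.TF.nc2
  have hCN2 : S_CN2 := Pool.Agent.H27.TF.cn2 hPRI hDET hMOO hCFS
  exact fin2_of hSUF Pool.Agent.H10.TF.grd hNEC Pool.Agent.H40.TF.bij hGEN hDEL hNC2 hCN2
    Pool.Agent.H40.TF.lt2 Pool.Agent.H83.TF.du2

end Pool.Agent.Results.MP_feb289_co.NumericalFreeness
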