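import Mathlib
import Pool.Agent.H77.TF.Def
import Pool.Agent.H77.TF.Def2
import Pool.Agent.H77.TF.Def3
import Pool.Agent.H79.TD.Stm5
import Pool.Agent.H42.TD.Fin6
import Pool.Agent.H79.TD.All
import Pool.Agent.H79.TD.Fin8
import Pool.Agent.H79.TD.Cr9
import Pool.Agent.H15.TD.CPT
import Pool.Agent.H1.TD.Bi2
import Pool.Agent.H39.TD.Lnc
import Pool.Agent.H53.TD.RS2
import Pool.Agent.H85.TD.DCM
import Pool.Agent.H91.TD.Upt
import Pool.Agent.H27.TD.Rep
import Pool.Agent.H64.TD.Ncl
import Pool.Agent.H40.TD.Bz2
import Pool.Agent.H53.TD.DIM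

/-!
# A criterion for the freeness of arrangements of planes over a finite field

Let `K` be the field with `q` elements and let `A` be an arrangement of `n ≥ 1` planes through the
origin of `K ^ 3`, that is, of `n` lines of the projective plane `P` over `K`.  Let `Z` be the set of the points of `P`
which are on no line of `A`, and `unc A` their number (this is the value of the characteristic polynomial at
`q` divided by `q - 1`).

`A` is free if and only if `Z` is empty or a complete intersection of type `(u, w)` with `1 ≤ u ≤ w` and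
`u + w + n = 2 q + 1`: the homogeneous ideal of `Z` is generated by two forms of degrees `u` and `w`. For such `u`, `w` it is
equivalent: `A` is free and `unc A = u w`; `A` has the exponents `1, q - w, q - u` and `unc A = u w`; `unc A = u w` and
no nonzero form of degree less than `u` vanishes on `Z`; `Z` is a nonempty complete intersection of type `(u, w)`.
If `unc A = u w` then some nonzero form of degree at most `u` vanishes on `Z`, and `A` is free if `(q - w) * u < q`: in this
range freeness can be read off from the characteristic polynomial, and Terao's conjecture holds over `K`.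

Let `a ≤ b < q`, and let `q` be a prime number, or at least `a` and `q - b` at most the characteristic. If
`(2 a - b - 3) (q - b) < q - 2` and `2 (2 a - b - 3) ≤ q - b + 3` then an arrangement of `n = 1 + a + b` planes with
`unc A = (q - a) (q - b)` is free if and only if no line is contained in more than `b + 1` planes, and Terao's conjecture
holds for the exponents `1, a, b` over `K`.
-/

set_option autoImplicit false

open MvPolynomial Module

namespace Pool.Agent.Results.MP_feb289_co.NumericalFreenessPlanes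

open Pool.Agent.H77.TF Pool.Agent.H79.TD

theorem result :
    ∀ (K : Type) [Field K] [Fintype K],
      (∀ (n : ℕ) (A : Fin n → Fin 3 → K), 1 ≤ n → Simple A →
        (Module.Free (MvPolynomial (Fin 3) K) (LD A) ↔ unc A = 0 ∨
          ∃ (u w : ℕ) (f g : MvPolynomial (Fin 3) K), 1 ≤ u ∧ u ≤ w ∧
            u + w + n = 2 * Fintype.card K + 1 ∧ f.IsHomogeneous u ∧ g.IsHomogeneous w ∧
            van A = Ideal.span {f, g}) ∧
        ∀ u w : ℕ, 1 ≤ u → u ≤ w → u + w + n = 2 * Fintype.card K + 1 →
          List.TFAE [Module.Free (MvPolynomial (Fin 3) K) (LD A) ∧ unc A = u * w,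
            HasExp A ![1, Fintype.card K - w, Fintype.card K - u] ∧ unc A = u * w,
            (∀ k < u, ∀ f : MvPolynomial (Fin 3) K, f.IsHomogeneous k →
              (∀ x ∈ Pts A, eval x f = 0) → f = 0) ∧ unc A = u * w,
            unc A ≠ 0 ∧ ∃ f g : MvPolynomial (Fin 3) K, f.IsHomogeneous u ∧ g.IsHomogeneous w ∧
              van A = Ideal.span {f, g}] ∧
          (unc A = u * w → (∃ k ≤ u, ∃ f : MvPolynomial (Fin 3) K, f ≠ 0 ∧ f.IsHomogeneous k ∧
              ∀ x ∈ Pts A, eval x f = 0) ∧
            ((Fintype.card K - w) * u < Fintype.card K →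
              HasExp A ![1, Fintype.card K - w, Fintype.card K - u]))) ∧
      (∀ (n m : ℕ) (A : Fin n → Fin 3 → K) (B : Fin m → Fin 3 → K), Simple A → Simple B →
        Nonempty (Lat A ≃o Lat B) →
        ∀ u w : ℕ, 1 ≤ n → 1 ≤ u → u ≤ w → u + w + n = 2 * Fintype.card K + 1 → unc A = u * w →
          (Fintype.card K - w) * u < Fintype.card K →
          m = n ∧ HasExp A ![1, Fintype.card K - w, Fintype.card K - u] ∧
            HasExp B ![1, Fintype.card K - w, Fintype.card K - u]) ∧
      ∀ a b t : ℕ, a ≤ b → b < Fintype.card K → 2 * a ≤ b + 3 + t →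
        t * (Fintype.card K - b) + 2 < Fintype.card K → 2 * t ≤ Fintype.card K - b + 3 →
        (Nat.Prime (Fintype.card K) ∨ a ≤ ringChar K ∧ Fintype.card K - b ≤ ringChar K) →
        (∀ (n : ℕ) (A : Fin n → Fin 3 → K), Simple A → n = 1 + a + b →
          unc A = (Fintype.card K - a) * (Fintype.card K - b) →
          (Module.Free (MvPolynomial (Fin 3) K) (LD A) ↔
            ∀ W : Submodule K (Fin 3 → K), finrank K W = 2 → Nat.card {i // A i ∈ W} ≤ b + 1)) ∧
        ∀ (n m : ℕ) (A : Fin n → Fin 3 → K) (B : Fin m → Fin 3 → K), Simple A → Simple B →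
          Nonempty (Lat A ≃o Lat B) → HasExp A ![1, a, b] → m = n ∧ HasExp B ![1, a, b] := by
  intro K _ _
  refine ⟨(Pool.Agent.H42.TD.fin6 K).1, (Pool.Agent.H42.TD.fin6 K).2, ?_⟩
  have hCPT : S_CPT := Pool.Agent.H15.TD.t_CPT Pool.Agent.H64.TD.t_NCL (Pool.Agent.H40.TD.t_BZ2 Pool.Agent.H53.TD.t_DIM)
  have hLNC : S_LNC := Pool.Agent.H39.TD.t_LNC Pool.Agent.H53.TD.t_RS2
    (Pool.Agent.H1.TD.t_BI2 Pool.Agent.H6.TD.t_JAC pri)
  have hCR8 : S_CR8 := cr8_of pri Pool.Agent.H77.GR.fin4 mr3 dd3 ext Pool.Agent.H83.TF.du2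
    Pool.Agent.H27.TD.t_REP hCPT Pool.Agent.H85.TD.t_DCM hLNC Pool.Agent.H91.TD.t_UPT
  exact fin8_of pri Pool.Agent.H77.GR.fin4 mr3 dd3 hCR8 Pool.Agent.H6.TD.t_MUL
    Pool.Agent.H71.TD.t_MLT Pool.Agent.H49.TD.t_UEX Pool.Agent.H40.TF.lt2 Pool.Agent.H83.TF.du2 suf
    Pool.Agent.H40.TF.bij K

end Pool.Agent.Results.MP_feb289_co.NumericalFreenessPlanes
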