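import Mathlib
import Pool.Agent.H77.TF.Def
import Pool.Agent.H77.TF.Stm
import Pool.Agent.H79.TD.Stm2
import Pool.Agent.H77.GQ.Stm
import Pool.Agent.H77.GQ.Fin
import Pool.Agent.H77.GQ.All
import Pool.Agent.H77.GQ.Cra
import Pool.Agent.H77.GQ.Fin2
import Pool.Agent.H10.TF.Grd
import Pool.Agent.H23.GQ.B2s
import Pool.Agent.H69.GQ.Exo
import Pool.Agent.H77.TF.Fin
import Pool.Agent.H79.TD.Fin

/-!
# Terao's conjecture for arrangements of planes with exponents `1, a, b`, `2 a ≤ b + 3`

Let `a ≤ b` and `2 a ≤ b + 3`, and let `K` be a field, finite or infinite, in which `1, 2, …, a - 1` are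
not zero.

An arrangement of planes through the origin of `K ^ 3` with the characteristic polynomial
`(t - 1) (t - a) (t - b)` is free if and only if no line is contained in more than `b + 1` of its planes.
In particular, if the lattices of an arrangement over an arbitrary field and of an arrangement over `K` are
isomorphic, and the first is free with exponents `1, a, b`, then so is the second.
Over the fields with a prime number of elements no condition on `a` is needed in the last statement.
-/

set_option autoImplicit false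

open MvPolynomial Module

namespace Pool.Agent.Results.MP_feb289_co.UnbalancedExponents

open Pool.Agent.H77.TF Pool.Agent.H77.GQ

/-- The number of the forms of `A` in the space `W` of linear forms: the number of the planes of the
arrangement through the line on which all forms in `W` vanish, if `W` has dimension two. -/
noncomputable def mu {K : Type} [Field K] {n : ℕ} (A : Fin n → Fin 3 → K)
    (W : Submodule K (Fin 3 → K)) : ℕ :=
  Nat.card {i // A i ∈ W}

/-- The characteristic polynomial is `(t - 1) (t - a) (t - b)`: there are `n = 1 + a + b` planes, and the sum of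
`m - 1` over all lines contained in `m ≥ 2` of the planes is `a b + a + b`. -/
def Chi {K : Type} [Field K] {n : ℕ} (A : Fin n → Fin 3 → K) (a b : ℕ) : Prop :=
  n = 1 + a + b ∧
    ∑ᶠ W ∈ {W : Submodule K (Fin 3 → K) | finrank K W = 2}, (mu A W - 1) = a * b + a + b

/-- The numbers `1, …, a - 1` are not zero in `K`. -/
def Tame (K : Type) [Field K] (a : ℕ) : Prop := ∀ j : ℕ, 0 < j → j < a → (j : K) ≠ 0

/-- Freeness with exponents `1, a, b` carries over from arrangements over `K` to arrangements over `K'`
with an isomorphic lattice. -/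
def Transfer (K K' : Type) [Field K] [Field K'] (a b : ℕ) : Prop :=
  ∀ (n m : ℕ) (A : Fin n → Fin 3 → K) (B : Fin m → Fin 3 → K'), Simple A → Simple B →
    Nonempty (Lat A ≃o Lat B) → HasExp A ![1, a, b] → m = n ∧ HasExp B ![1, a, b]

theorem result :
    ∀ a b : ℕ, a ≤ b → 2 * a ≤ b + 3 →
      (∀ (K : Type) [Field K], Tame K a → ∀ (n : ℕ) (A : Fin n → Fin 3 → K), Simple A →
        (HasExp A ![1, a, b] → Chi A a b) ∧
        (Chi A a b → List.TFAE [Module.Free (MvPolynomial (Fin 3) K) (LD A), HasExp A ![1, a, b],
          ∀ W : Submodule K (Fin 3 → K), finrank K W = 2 → mu A W ≤ b + 1])) ∧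
      (∀ (K K' : Type) [Field K] [Field K'], Tame K' a → Transfer K K' a b) ∧
      ∀ (K : Type) [Field K] [Fintype K], Nat.Prime (Fintype.card K) → Transfer K K a b := by
  intro a b hab h2
  refine ⟨fun K _ hch n A hA => ?_, fun K K' _ _ hch n m A B hA hB h hE =>
    tea K K' n m A B a b hA hB h hab h2 hch hE, fun K _ _ hp n m A B hA hB h hE =>
    (fin5 K a b hab h2 (Or.inl hp)).2 n m A B hA hB h hE⟩
  have h3 := cra K n A a b hA hab h2 hch
  have h4 := Pool.Agent.H23.GQ.b2s K n A hA
  rw [h4, ← and_assoc] at h3
  change _ ↔ Chi A a b ∧ ∀ W : Submodule K (Fin 3 → K), finrank K W = 2 → mu A W ≤ b + 1 at h3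
  refine ⟨fun h => (h3.1 h).1, fun hC => ?_⟩
  tfae_have 2 ↔ 3 := ⟨fun h => (h3.1 h).2, fun h => h3.2 ⟨hC, h⟩⟩
  tfae_have 2 → 1 := fun h => free_of_hasExp h
  tfae_have 1 → 2 := by
    intro hF
    obtain ⟨hn, hb⟩ := hC
    obtain ⟨a', b', hab', hE⟩ :=
      Pool.Agent.H69.GQ.exo Pool.Agent.H10.TF.grd K n A hA (by omega) hF
    obtain ⟨hn1, hs⟩ := nuq K n A a' b' hA hE
    rw [sum_hn, h4] at hs
    change _ = a * b + a + b at hb
    rw [show (∑ᶠ W ∈ {W : Submodule K (Fin 3 → K) | finrank K W = 2},
      (Nat.card {i // A i ∈ W} - 1)) = a * b + a + b from hb] at hs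
    have hn' : (n : ℤ) = 1 + a + b := by exact_mod_cast hn
    have hn1' : (n : ℤ) = 1 + a' + b' := by exact_mod_cast hn1
    have h5 : a + b = a' + b' := by omega
    have h6 : a * b = a' * b' := by
      have h7 : (n : ℤ) * (n - 1) = (1 + a' + b') * (a' + b') := by
        rw [hn1']
        ring
      have h8 : (a : ℤ) + b = a' + b' := by exact_mod_cast h5
      have : (a : ℤ) * b = a' * b' := by
        push_cast at hs
        linarith
      exact_mod_cast this
    have h7 : a = a' := Pool.Agent.H79.TD.pair_unique hab hab' h5 h6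
    have h8 : b = b' := by omega
    rw [h7, h8]
    exact hE
  tfae_finish

end Pool.Agent.Results.MP_feb289_co.UnbalancedExponents
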